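import Pool.Agent.Lib.MP_5ef5ec_co.Neg6

/-!
# Higher-order freeness of Shi arrangements

For `m ≥ 3` and `ℓ ≥ 2` the arrangement `Shi_ℓ` (the cone over the Shi arrangement, in the
variables `x_1, …, x_ℓ, z`) is `m`-free if and only if `ℓ = 2`, over every field of
characteristic zero.
-/

namespace Pool.Agent.Results.MP_5ef5ec_co.ShiFree

open Pool.Agent.Lib.MP_5ef5ec_co

theorem result (K : Type*) [Field K] [CharZero K] (m ℓ : ℕ) (hm : 3 ≤ m) (hl : 2 ≤ ℓ) :
    IsMFree (shiQ K ℓ) m ↔ ℓ = 2 := by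
  constructor
  · intro h
    by_contra hne
    exact not_isMFree_shi K (by omega) (by omega) h
  · rintro rfl
    exact isMFree_shi_two hm

end Pool.Agent.Results.MP_5ef5ec_co.ShiFree
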